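import Pool.Agent.H219.WhP.Van

/-!
# Traces of invertible matrices over group rings with coefficients of prime characteristic
-/

set_option autoImplicit false
set_option linter.unusedSectionVars false

namespace Pool.Agent.Results.MP_5d3e93_al.TraceCommutativeCharP

open Finset
open Pool.Agent.H23R2 (InvPair IsCoc Y isCoc_of_hochschild)
open H219.WhR (rest rest_coc)
open H219.WhC (DsumR invPair_units cf supp mem_supp pairing pairing_eq)
open H219.WhP (class_zero)
open scoped Classical

universe u v w

/-- Let `R` be a commutative ring of prime characteristic `p` (not necessarily regular or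
reduced), `Γ` any group and `M` an `R`-module. Let `f : Γ × Γ → M` be a Hochschild `1`-cocycle
with `f (g ^ m) g = 0` for all `g` and `m ≥ 0` and with `f g h = 0` whenever `g h` is conjugate to
`(g h) ^ (p ^ j)` for some `j ≥ 1`. Then `f` vanishes on the Dennis trace of every invertible
matrix over `R[Γ]`. -/
theorem result (p : ℕ) [Fact p.Prime] (R : Type u) [CommRing R] [CharP R p]
    (Γ : Type v) [Group Γ] (M : Type w) [AddCommGroup M] [Module R M]
    (f : Γ → Γ → M) (hf : ∀ x y z : Γ, f (x * y) z - f x (y * z) + f (z * x) y = 0)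
    (hf1 : ∀ (g : Γ) (m : ℕ), f (g ^ m) g = 0)
    (hsupp : ∀ (g h c : Γ) (j : ℕ), 1 ≤ j → c * (g * h) * c⁻¹ = (g * h) ^ p ^ j → f g h = 0)
    (n : ℕ) (A : (Matrix (Fin n) (Fin n) (MonoidAlgebra R Γ))ˣ) :
    (∑ i, ∑ j, ((A⁻¹).val i j).coeff.sum fun g b =>
        (A.val j i).coeff.sum fun h a => (b * a) • f g h) = 0 := by
  show pairing f (A⁻¹).val A.val = 0
  set S : Finset Γ := supp A.val ∪ supp (A⁻¹).val with hS
  have hA : ∀ i j g, (A.val i j).coeff g ≠ 0 → g ∈ S := fun i j g hg =>
    Finset.mem_union_left _ (mem_supp _ i j g hg)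
  have hB : ∀ i j g, ((A⁻¹).val i j).coeff g ≠ 0 → g ∈ S :=
    fun i j g hg => Finset.mem_union_right _ (mem_supp _ i j g hg)
  have hpair : InvPair (cf A.val) (cf (A⁻¹).val) S := invPair_units A
  rw [pairing_eq f (A⁻¹).val A.val S hA hB]
  have hF := isCoc_of_hochschild f hf
  set F : Γ → Γ → M := fun w x => f (x⁻¹ * w) x with hFdef
  have hb : ∀ (w : Γ) (m : ℕ), 1 ≤ m → F (w ^ m) w = 0 := by
    intro w m hm
    obtain ⟨m, rfl⟩ := Nat.exists_eq_add_of_le' hm
    show f (w⁻¹ * w ^ (m + 1)) w = 0
    rw [pow_succ', inv_mul_cancel_left]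
    exact hf1 _ _
  let cl : Y (Fin n) S → ConjClasses Γ := fun y => ConjClasses.mk ((y.2.2.1 : Γ) * y.2.2.2)
  have h1 : DsumR (cf A.val) (cf (A⁻¹).val) S F =
      ∑ C ∈ Finset.univ.image cl, DsumR (cf A.val) (cf (A⁻¹).val) S (rest C F) := by
    unfold DsumR
    rw [Finset.sum_comm]
    apply Finset.sum_congr rfl
    intro y _
    rw [← Finset.smul_sum]
    congr 1
    rw [Finset.sum_eq_single (cl y)]
    · unfold rest
      rw [if_pos rfl]
    · intro C _ hC
      unfold rest
      rw [if_neg (fun hh => hC hh.symm)]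
    · intro hh
      exact absurd (Finset.mem_image_of_mem cl (Finset.mem_univ y)) hh
  rw [h1]
  apply Finset.sum_eq_zero
  intro C _
  by_cases hz : ∃ w x, rest C F w x ≠ 0
  · obtain ⟨w, x, hwx⟩ := hz
    have hC : ConjClasses.mk w = C := by
      by_contra hcon
      apply hwx
      unfold rest
      rw [if_neg hcon]
    have hne : F w x ≠ 0 := by
      intro h0
      apply hwx
      unfold rest
      rw [if_pos hC, h0]
    refine class_zero (g := x⁻¹ * w * x) hpair ?_ (rest_coc C hF) ?_ ?_
    · intro j hj c hc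
      exact hne (hsupp _ _ c j hj hc)
    · intro w' m hm
      unfold rest
      split_ifs
      · exact hb w' m hm
      · rfl
    · intro w' x' hne'
      unfold rest at hne'
      have h3 : ConjClasses.mk w' = C := by
        by_contra hcon
        exact hne' (if_neg hcon)
      have h4 : IsConj w w' := ConjClasses.mk_eq_mk_iff_isConj.1 (hC.trans h3.symm)
      have h5 : IsConj (x⁻¹ * w * x) w := isConj_iff.2 ⟨x, by group⟩
      exact h5.trans h4
  · push Not at hz
    unfold DsumR
    apply Finset.sum_eq_zero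
    intro y _
    rw [hz, smul_zero]

end Pool.Agent.Results.MP_5d3e93_al.TraceCommutativeCharP
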